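import Pool.Agent.NUA.PubA

/-!
Honeycomb lattice at the critical point: the total area of the self-avoiding polygons that meet at most `T`
rows is asymptotic to `log T / (6 π)`.
-/

set_option autoImplicit false

open ENNReal Filter Topology

namespace Pool.Agent.Held46.AreaAmplitude

/-- Nearest neighbours of the honeycomb lattice in brick wall coordinates: the sites are `ℤ × ℤ`,
`(x, y)` is joined to `(x + 1, y)`, and to `(x, y + 1)` if `x + y` is even. -/
def Edge (p q : ℤ × ℤ) : Prop :=
  q = (p.1 + 1, p.2) ∨ p = (q.1 + 1, q.2) ∨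
    (q = (p.1, p.2 + 1) ∧ Even (p.1 + p.2)) ∨ (p = (q.1, q.2 + 1) ∧ Even (q.1 + q.2))

/-- The critical point. -/
noncomputable def x : ℝ := (Real.sqrt (2 + Real.sqrt 2))⁻¹

/-- The critical weight `x ^ n` of a polygon with `n` sites. -/
noncomputable def wt (L : List (ℤ × ℤ)) : ℝ≥0∞ := ENNReal.ofReal (x ^ L.length)

/-- `L` lists, in cyclic order, the sites of a self-avoiding polygon. The polygon is translated so
that its lowest row is the row `1` and its rightmost site there is `(1, 1)`; its neighbours in the
polygon are then `(0, 1)` and `(1, 2)`. The list starts at `(0, 1)` and ends at `(1, 1)`: there is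
exactly one list for every polygon up to translation. -/
def Polygon (L : List (ℤ × ℤ)) : Prop :=
  L.IsChain Edge ∧ L.Nodup ∧ 3 ≤ L.length ∧ L.head? = some (0, 1) ∧ L.getLast? = some (1, 1) ∧
    (∀ p ∈ L, 1 ≤ p.2) ∧ ∀ p ∈ L, p.2 = 1 → p.1 ≤ 1

/-- The area of the polygon, the number of the hexagons inside: half of its area in the brick wall
(every hexagon has the area `2` there), by the formula `∑ i, x i * (y (i + 1) - y i)`. -/
def area (L : List (ℤ × ℤ)) : ℕ :=
  (List.zipWith (fun p q : ℤ × ℤ => p.1 * (q.2 - p.2)) L (L.rotate 1)).sum.natAbs / 2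

/-- The total area (with the critical weights) of the polygons that meet at most `T` rows, up to
translation. -/
noncomputable def A (T : ℕ) : ℝ≥0∞ := ∑' L : {L // Polygon L ∧ ∀ p ∈ L, p.2 ≤ T}, wt L * area L

theorem result_of (h : NUI.Target) : (∀ T : ℕ, A T ≠ ∞) ∧
    Tendsto (fun T : ℕ => (A T).toReal / Real.log T) atTop (𝓝 (1 / (6 * Real.pi))) :=
  NUA.area_main h

end Pool.Agent.Held46.AreaAmplitude
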