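import Pool.Agent.CRT.All

/-!
The uniformly random `n`-step self-avoiding walk on the hexagonal lattice: its rescaled laws converge and the numbers of walks
vary regularly if and only if certain ratios of critical susceptibilities of domains converge.
-/

set_option autoImplicit false

open MeasureTheory Filter Topology

namespace Pool.Agent.Held46.CriticalRatios

open Pool.Agent.NTS.Res Pool.Agent.CRT

theorem result :
    ((∀ F : Finset ℂ, F.Nonempty → ∀ᵐ t : ℝ, 0 < t → ∃ l : ℝ,
        Tendsto (fun R : ℝ => chi R (Metric.ball 0 1 ∩ Metric.thickening t (F : Set ℂ)) / chi R (Metric.ball 0 1)) atTop (𝓝 l)) ↔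
      (∃ ν : Measure C(unitInterval, ℂ), IsProbabilityMeasure ν ∧ LawTo (fun n => n) ν) ∧
        ∀ x : ℝ, 0 < x → Tendsto (fun n : ℕ => aN ⌊x * n⌋₊ / aN n) atTop (𝓝 (x ^ (11 / 32 : ℝ)))) ∧
    ((∃ ν : Measure C(unitInterval, ℂ), IsProbabilityMeasure ν ∧ LawTo (fun n => n) ν) →
      ∀ x : ℝ, 0 < x → Tendsto (fun n : ℕ => size ⌊x * n⌋₊ / size n) atTop (𝓝 (x ^ (3 / 4 : ℝ)))) :=
  crt

end Pool.Agent.Held46.CriticalRatios
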