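import Pool.Agent.WX.NestL
import Pool.Agent.WX.ZLaw

/-!
Honeycomb lattice at the critical point: the exponents of the families of exactly `k` nested self-avoiding
polygons around a hexagon, `k ~ κ log T`, `0 < κ < 2 / (3 π ^ 2)` (extreme nesting).
-/

set_option autoImplicit false

open ENNReal Filter Topology Real

namespace Pool.Agent.Held46.ExtremeNesting

/-- Nearest neighbours of the honeycomb lattice in brick wall coordinates: the sites are `ℤ × ℤ`,
`(x, y)` is joined to `(x + 1, y)`, and to `(x, y + 1)` if `x + y` is even. -/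
def Edge (p q : ℤ × ℤ) : Prop :=
  q = (p.1 + 1, p.2) ∨ p = (q.1 + 1, q.2) ∨
    (q = (p.1, p.2 + 1) ∧ Even (p.1 + p.2)) ∨ (p = (q.1, q.2 + 1) ∧ Even (q.1 + q.2))

/-- The critical point. -/
noncomputable def x : ℝ := (Real.sqrt (2 + Real.sqrt 2))⁻¹

/-- The critical weight `x ^ n` of a polygon with `n` sites. -/
noncomputable def wt (L : List (ℤ × ℤ)) : ℝ≥0∞ := ENNReal.ofReal (x ^ L.length)

/-- `L` lists, in cyclic order, the sites of a self-avoiding polygon. The polygon is translated so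
that its lowest row is the row `1` and its rightmost site there is `(1, 1)`; its neighbours in the
polygon are then `(0, 1)` and `(1, 2)`. The list starts at `(0, 1)` and ends at `(1, 1)`: there is
exactly one list for every polygon up to translation. -/
def Polygon (L : List (ℤ × ℤ)) : Prop :=
  L.IsChain Edge ∧ L.Nodup ∧ 3 ≤ L.length ∧ L.head? = some (0, 1) ∧ L.getLast? = some (1, 1) ∧
    (∀ p ∈ L, 1 ≤ p.2) ∧ ∀ p ∈ L, p.2 = 1 → p.1 ≤ 1

/-- A polygon of the plane is given by its normal form `P.2` and its translation `P.1`; these are its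
sites. -/
def sites (P : (ℤ × ℤ) × List (ℤ × ℤ)) : List (ℤ × ℤ) := P.2.map (· + P.1)

/-- The polygon surrounds the hexagon with the sites `(0, 0), (1, 0), (2, 0), (2, 1), (1, 1), (0, 1)`.
The ray from its centre `(1, 1 / 2)` in the direction `(-1, -1)` meets exactly the edges of the lattice
between `(k, k)` and `(k + 1, k)`, `k ≤ 0`, in their midpoints; the polygon contains an odd number of them. -/
def Around (P : (ℤ × ℤ) × List (ℤ × ℤ)) : Prop :=
  Odd (((sites P).zip ((sites P).rotate 1)).countP fun e =>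
    e.1.2 = e.2.2 ∧ min e.1.1 e.2.1 = e.1.2 ∧ e.1.2 ≤ 0)

/-- `F` is a set of self-avoiding polygons in the box `[-T, T] ^ 2` that surround the hexagon and are
pairwise disjoint, hence nested. -/
def Nested (T : ℕ) (F : Finset ((ℤ × ℤ) × List (ℤ × ℤ))) : Prop :=
  (∀ P ∈ F, Even (P.1.1 + P.1.2) ∧ Polygon P.2 ∧ Around P ∧ ∀ p ∈ sites P, |p.1| ≤ T ∧ |p.2| ≤ T) ∧
  ∀ P ∈ F, ∀ P' ∈ F, P ≠ P' → ∀ p ∈ sites P, p ∉ sites P'

/-- The total weight of the families of exactly `k` polygons. -/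
noncomputable def K (k T : ℕ) : ℝ≥0∞ := ∑' F : {F // Nested T F ∧ F.card = k}, ∏ P ∈ F.1, wt P.2

theorem result : ∀ θ : ℝ, 0 < θ → θ < π / 2 → ∀ k : ℕ → ℕ,
    Tendsto (fun T : ℕ => (k T : ℝ) / Real.log T) atTop (𝓝 (2 * θ / (3 * π ^ 2 * tan θ))) →
    (∀ T : ℕ, K (k T) T ≠ ∞) ∧
    Tendsto (fun T : ℕ => Real.log (K (k T) T).toReal / Real.log T) atTop
      (𝓝 (1 / 12 - θ ^ 2 / (3 * π ^ 2) - 2 * θ / (3 * π ^ 2 * tan θ) * Real.log (2 * cos θ))) := by
  intro θ h0 h1 k hk
  have hL : WX.NT.LawZ := by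
    obtain ⟨_, _, _, _, _, _, _, c0, C0, hc, hC, h⟩ := WX.lawsX.2
    exact ⟨c0, C0, hc, hC, fun N hN d h0 h1 => h N hN d ⟨h0, h1⟩⟩
  refine ⟨fun T => ?_, ?_⟩
  · have h1 : K (k T) T = WX.NT.KZ (k T) T := rfl
    rw [h1, WX.NT.KZ_eq]
    exact ENNReal.ofReal_ne_top
  · have e : 2 * θ / (3 * π ^ 2 * tan θ) = 2 * θ * cos θ / (3 * π ^ 2 * sin θ) := by
      have hc : 0 < cos θ := cos_pos_of_mem_Ioo ⟨by linarith [pi_pos], h1⟩
      have hs : 0 < sin θ := sin_pos_of_pos_of_lt_pi h0 (by linarith [pi_pos])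
      have hp := pi_pos
      rw [tan_eq_sin_div_cos]
      field_simp
    rw [e] at hk ⊢
    exact WX.NT.nested_k hL h0 h1 hk

end Pool.Agent.Held46.ExtremeNesting
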