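import Pool.Agent.IW.Fin6

/-!
The infinite self-avoiding walk on the hexagonal lattice: coupling of the beginning of the uniformly random `n`-step walk with
the infinite walk, asymptotic independence of the rescaled walk; almost sure growth and two-sided regularity of the path with the
exponent 3 / 4; zero-one law; simple subsequential scaling limits; self-similar limits of the logarithmic averages; winding.
-/

set_option autoImplicit false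

open MeasureTheory ProbabilityTheory Filter Topology
open scoped Classical ENNReal NNReal

namespace Pool.Agent.Held46.InfiniteWalk2

open Pool.Agent.IW.Res

theorem result :
    ∃ P : Measure (ℕ → Fin 3), IsProbabilityMeasure P ∧
    (∀ᵐ w ∂P, Function.Injective (ipos w)) ∧
    (∀ (ε : ℝ) (K : NNReal), 0 < ε → ∃ δ : ℝ, 0 < δ ∧ ∀ n m : ℕ, (m : ℝ) ≤ δ * n →
      ∀ F : C(unitInterval, ℂ) → ℝ, LipschitzWith K F → (∀ γ, |F γ| ≤ 1) →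
        ∑ η : Fin m → Fin 3, |mean n (fun s => if Begins s η then F (curve s) else 0) -
          P.real {w | ∀ i : Fin m, w i = η i} * mean n (fun s => F (curve s))| ≤ ε) ∧
    (∀ ε τ : ℝ, 0 < ε → 0 < τ → ∃ c C : ℝ, 0 < c ∧ 0 < C ∧ ∀ k : ℕ, 1 ≤ k →
      1 - ε ≤ P.real {w | (∀ i, i ≤ k → ‖ipos w i‖ ≤ C * (k : ℝ) ^ (3 / 4 : ℝ)) ∧
        ∀ i : ℕ, τ * k ≤ i → i ≤ k → c * (k : ℝ) ^ (3 / 4 : ℝ) ≤ ‖ipos w i‖}) ∧
    (∀ᵐ w ∂P, ∀ δ : ℝ, 0 < δ → ∀ᶠ k : ℕ in atTop, (k : ℝ) ^ (3 / 4 - δ) ≤ ‖ipos w k‖ ∧ ∀ i j : ℕ, i < j → j ≤ k →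
      ‖ipos w j - ipos w i‖ ≤ (k : ℝ) ^ δ * ((j : ℝ) - i) ^ (3 / 4 : ℝ) ∧
      ∃ l : ℕ, i ≤ l ∧ l ≤ j ∧ (k : ℝ) ^ (-δ) * ((j : ℝ) - i) ^ (3 / 4 : ℝ) ≤ ‖ipos w l - ipos w i‖) ∧
    (∀ A : Set (ℕ → Fin 3), MeasurableSet A → (∀ w : ℕ → Fin 3, (fun i => w (i + 2)) ∈ A ↔ w ∈ A) → P A = 0 ∨ P A = 1) ∧
    (IsTightMeasureSet {μ | ∃ k : ℕ, 1 ≤ k ∧ μ = P.map (fun w => tcurve (k : ℝ) w)} ∧
      (∀ φ : ℕ → ℕ, StrictMono φ → ∃ ψ : ℕ → ℕ, StrictMono ψ ∧ ∃ ν : Measure C(unitInterval, ℂ),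
        IsProbabilityMeasure ν ∧ TLawTo P (fun j => φ (ψ j)) ν) ∧
      ∀ (φ : ℕ → ℕ) (ν : Measure C(unitInterval, ℂ)), Tendsto φ atTop atTop → IsProbabilityMeasure ν → TLawTo P φ ν →
        ∀ᵐ γ : C(unitInterval, ℂ) ∂ν, Function.Injective γ ∧ γ 0 = 0 ∧
          ∀ a : NNReal, (a : ℝ) < 3 / 4 → ∃ M : NNReal, HolderWith M a γ) ∧
    ((∀ φ : ℕ → ℕ, StrictMono φ → ∃ ψ : ℕ → ℕ, StrictMono ψ ∧ ∃ ν : Measure C(unitInterval, ℂ),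
        IsProbabilityMeasure ν ∧ MeanTo P (fun j => φ (ψ j)) ν) ∧
      ∀ (φ : ℕ → ℕ) (ν : Measure C(unitInterval, ℂ)), Tendsto φ atTop atTop → IsProbabilityMeasure ν → MeanTo P φ ν →
        (∀ c : unitInterval, 0 < c → ν.map (zoom c) = ν) ∧
        ∀ᵐ γ : C(unitInterval, ℂ) ∂ν, Function.Injective γ ∧ γ 0 = 0 ∧
          ∀ a : NNReal, (a : ℝ) < 3 / 4 → ∃ M : NNReal, HolderWith M a γ) ∧
    (∀ (I : Finset ℝ≥0) (f : BoundedContinuousFunction (I → ℝ) ℝ),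
      Tendsto (fun n : ℕ => ∫ w, f (fun u : I => iwind w ⌊(n : ℝ) ^ (u : ℝ)⌋₊ / √(2 * Real.log n)) ∂P) atTop
        (𝓝 (∫ x, f x ∂(BrownianReal.projectiveFamily I)))) ∧
    ∀ (I : Finset ℝ≥0), (∀ u ∈ I, u ≤ 1) → ∀ F : BoundedContinuousFunction (C(unitInterval, ℂ) × (I → ℝ)) ℝ,
      Tendsto (fun n : ℕ => ∫ w, F (tcurve (n : ℝ) w, fun u : I => iwind w ⌊(n : ℝ) ^ (u : ℝ)⌋₊ / √(2 * Real.log n)) ∂P -
        ∫ w, (∫ y, F (tcurve (n : ℝ) w, y) ∂(BrownianReal.projectiveFamily I)) ∂P) atTop (𝓝 0) :=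
  Pool.Agent.IW.fin6

end Pool.Agent.Held46.InfiniteWalk2
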