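import Pool.Agent.WX.NfTwo
import Pool.Agent.WX.ZLaw

/-!
Honeycomb lattice at the critical point: the families of nested self-avoiding polygons around a hexagon with
the weight `n = 2 cos θ` for every polygon have the critical exponent `1 / 12 - θ ^ 2 / (3 π ^ 2)`, up to
constants that do not depend on `n`.
-/

set_option autoImplicit false

open ENNReal Filter Topology Real

namespace Pool.Agent.Held46.NestedLoops2

/-- Nearest neighbours of the honeycomb lattice in brick wall coordinates: the sites are `ℤ × ℤ`,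
`(x, y)` is joined to `(x + 1, y)`, and to `(x, y + 1)` if `x + y` is even. -/
def Edge (p q : ℤ × ℤ) : Prop :=
  q = (p.1 + 1, p.2) ∨ p = (q.1 + 1, q.2) ∨
    (q = (p.1, p.2 + 1) ∧ Even (p.1 + p.2)) ∨ (p = (q.1, q.2 + 1) ∧ Even (q.1 + q.2))

/-- The critical point. -/
noncomputable def x : ℝ := (Real.sqrt (2 + Real.sqrt 2))⁻¹

/-- The critical weight `x ^ n` of a polygon with `n` sites. -/
noncomputable def wt (L : List (ℤ × ℤ)) : ℝ≥0∞ := ENNReal.ofReal (x ^ L.length)

/-- `L` lists, in cyclic order, the sites of a self-avoiding polygon. The polygon is translated so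
that its lowest row is the row `1` and its rightmost site there is `(1, 1)`; its neighbours in the
polygon are then `(0, 1)` and `(1, 2)`. The list starts at `(0, 1)` and ends at `(1, 1)`: there is
exactly one list for every polygon up to translation. -/
def Polygon (L : List (ℤ × ℤ)) : Prop :=
  L.IsChain Edge ∧ L.Nodup ∧ 3 ≤ L.length ∧ L.head? = some (0, 1) ∧ L.getLast? = some (1, 1) ∧
    (∀ p ∈ L, 1 ≤ p.2) ∧ ∀ p ∈ L, p.2 = 1 → p.1 ≤ 1

/-- A polygon of the plane is given by its normal form `P.2` and its translation `P.1`; these are its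
sites. -/
def sites (P : (ℤ × ℤ) × List (ℤ × ℤ)) : List (ℤ × ℤ) := P.2.map (· + P.1)

/-- The polygon surrounds the hexagon with the sites `(0, 0), (1, 0), (2, 0), (2, 1), (1, 1), (0, 1)`.
The ray from its centre `(1, 1 / 2)` in the direction `(-1, -1)` meets exactly the edges of the lattice
between `(k, k)` and `(k + 1, k)`, `k ≤ 0`, in their midpoints; the polygon contains an odd number of them. -/
def Around (P : (ℤ × ℤ) × List (ℤ × ℤ)) : Prop :=
  Odd (((sites P).zip ((sites P).rotate 1)).countP fun e =>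
    e.1.2 = e.2.2 ∧ min e.1.1 e.2.1 = e.1.2 ∧ e.1.2 ≤ 0)

/-- `F` is a set of self-avoiding polygons in the box `[-T, T] ^ 2` that surround the hexagon and are
pairwise disjoint, hence nested. -/
def Nested (T : ℕ) (F : Finset ((ℤ × ℤ) × List (ℤ × ℤ))) : Prop :=
  (∀ P ∈ F, Even (P.1.1 + P.1.2) ∧ Polygon P.2 ∧ Around P ∧ ∀ p ∈ sites P, |p.1| ≤ T ∧ |p.2| ≤ T) ∧
  ∀ P ∈ F, ∀ P' ∈ F, P ≠ P' → ∀ p ∈ sites P, p ∉ sites P'

/-- The total weight of the families, every polygon has the weight `n` times its critical weight. -/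
noncomputable def Z (n : ℝ) (T : ℕ) : ℝ≥0∞ :=
  ∑' F : {F // Nested T F}, ∏ P ∈ F.1, (ENNReal.ofReal n * wt P.2)

theorem result : ∃ c C : ℝ, 0 < c ∧ 0 < C ∧ ∀ n : ℝ, 0 < n → n ≤ 2 → ∀ T : ℕ, 1 ≤ T →
    ENNReal.ofReal (c * (T : ℝ) ^ (1 / 12 - arccos (n / 2) ^ 2 / (3 * π ^ 2))) ≤ Z n T ∧
    Z n T ≤ ENNReal.ofReal (C * (T : ℝ) ^ (1 / 12 - arccos (n / 2) ^ 2 / (3 * π ^ 2))) := by
  obtain ⟨_, _, _, _, _, _, _, c0, C0, hc, hC, h⟩ := WX.lawsX.2
  exact WX.NT.nested_two ⟨c0, C0, hc, hC, fun N hN d h0 h1 => h N hN d ⟨h0, h1⟩⟩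

end Pool.Agent.Held46.NestedLoops2
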